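import Pool.Agent.Helper29.SH.Goals

/-! Project SH (MP_0a002a_al), packet NRM: Frattini argument. -/

set_option autoImplicit false

open scoped Pointwise

namespace Pool.Agent.Helper54.SH

open Subgroup Pool.Agent.Helper29.SH

theorem sylow_conj {M : Type} [Group M] (E S S' : Subgroup M) (r : ℕ) (hr : r.Prime) [Finite E]
    (hS : S ≤ E) (hS' : S' ≤ E) (c : Nat.card S = r ^ (Nat.card E).factorization r)
    (c' : Nat.card S' = r ^ (Nat.card E).factorization r) :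
    ∃ e ∈ E, ∀ x, x ∈ S' ↔ e⁻¹ * x * e ∈ S := by
  haveI := Fact.mk hr
  have d : Nat.card (S.subgroupOf E) = r ^ (Nat.card E).factorization r := by
    rw [← c]
    exact Nat.card_congr (Subgroup.subgroupOfEquivOfLe hS).toEquiv
  have d' : Nat.card (S'.subgroupOf E) = r ^ (Nat.card E).factorization r := by
    rw [← c']
    exact Nat.card_congr (Subgroup.subgroupOfEquivOfLe hS').toEquiv
  obtain ⟨g, hg⟩ := MulAction.exists_smul_eq E (Sylow.ofCard (S.subgroupOf E) d)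
    (Sylow.ofCard (S'.subgroupOf E) d')
  have h1 : ∀ x : E, x ∈ S'.subgroupOf E ↔ g⁻¹ * x * g ∈ S.subgroupOf E := by
    intro x
    have h2 : x ∈ (Sylow.ofCard (S'.subgroupOf E) d' : Subgroup E) ↔
        x ∈ ((g • Sylow.ofCard (S.subgroupOf E) d : Sylow r E) : Subgroup E) := by
      rw [hg]
    have h3 : ((g • Sylow.ofCard (S.subgroupOf E) d : Sylow r E) : Subgroup E) =
        MulAut.conj g • (Sylow.ofCard (S.subgroupOf E) d : Subgroup E) := rfl
    rw [h3, Subgroup.mem_pointwise_smul_iff_inv_smul_mem, ← map_inv] at h2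
    have h4 : MulAut.conj g⁻¹ • x = g⁻¹ * x * g := by
      show MulAut.conj g⁻¹ x = _
      rw [MulAut.conj_apply, inv_inv]
    rw [h4] at h2
    exact h2
  refine ⟨g, g.2, fun x => ?_⟩
  constructor
  · intro hx
    have h2 := (h1 ⟨x, hS' hx⟩).1 (by rw [Subgroup.mem_subgroupOf]; exact hx)
    rw [Subgroup.mem_subgroupOf] at h2
    exact h2
  · intro hx
    have hxE : x ∈ E := by
      have h3 := E.mul_mem (E.mul_mem g.2 (hS hx)) (E.inv_mem g.2)
      have h4 : (g : M) * ((g : M)⁻¹ * x * g) * (g : M)⁻¹ = x := by group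
      rwa [h4] at h3
    have h2 := (h1 ⟨x, hxE⟩).2 (by rw [Subgroup.mem_subgroupOf]; exact hx)
    rw [Subgroup.mem_subgroupOf] at h2
    exact h2

/-- `a` normalises a finite subgroup with `Inv a S`. -/
theorem inv_iff {M : Type} [Group M] (a : M) (S : Subgroup M) (hf : (S : Set M).Finite)
    (h : Inv a S) (x : M) : x ∈ S ↔ a⁻¹ * x * a ∈ S := by
  refine ⟨fun hx => h x hx, fun hx => ?_⟩
  haveI : Finite S := hf.to_subtype
  let φ : S → S := fun s => ⟨a⁻¹ * s * a, h s s.2⟩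
  have hφ : Function.Injective φ := by
    intro s t hst
    have h1 : a⁻¹ * (s : M) * a = a⁻¹ * t * a := congrArg Subtype.val hst
    exact Subtype.ext (mul_left_cancel (mul_right_cancel h1))
  obtain ⟨s, hs⟩ := Finite.surjective_of_injective hφ ⟨_, hx⟩
  have h1 : a⁻¹ * (s : M) * a = a⁻¹ * x * a := congrArg Subtype.val hs
  have h2 : (s : M) = x := mul_left_cancel (mul_right_cancel h1)
  rw [← h2]
  exact s.2

theorem t_NRM : S_SYE → S_SYU → S_NRM := by
  intro hSYE hSYU M _ a E V S p q r hp hq hr ha hE hV hVq hqE hiE hiV hfE hfV hVE hSE hSc hiS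
  classical
  haveI : Finite E := hE.to_subtype
  haveI : Finite V := hV.to_subtype
  haveI := Fact.mk hq
  have hSf : (S : Set M).Finite := hE.subset hSE
  obtain ⟨m, hm⟩ := (IsPGroup.iff_card).1 hVq
  have hcop : Nat.Coprime (Nat.card E) (Nat.card V) := by
    rw [hm]
    exact Nat.Coprime.pow_right m ((Nat.Prime.coprime_iff_not_dvd hq).2 hqE).symm
  have hEV : ∀ x, x ∈ E → x ∈ V → x = 1 := by
    intro x h1 h2
    have h3 := Subgroup.inf_eq_bot_of_coprime hcop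
    have h4 : x ∈ E ⊓ V := ⟨h1, h2⟩
    rw [h3] at h4
    exact Subgroup.mem_bot.1 h4
  have hVE' : ∀ v ∈ V, ∀ e ∈ E, v * e * v⁻¹ ∈ E := by
    intro v hv e he
    have h1 := hVE v⁻¹ (V.inv_mem hv) e he
    rwa [inv_inv] at h1
  -- the group `E V`
  let K : Subgroup M :=
    { carrier := {x | ∃ e ∈ E, ∃ v ∈ V, x = e * v}
      mul_mem' := by
        rintro _ _ ⟨e, he, v, hv, rfl⟩ ⟨e', he', v', hv', rfl⟩
        refine ⟨e * (v * e' * v⁻¹), E.mul_mem he (hVE' v hv e' he'), v * v',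
          V.mul_mem hv hv', by group⟩
      one_mem' := ⟨1, E.one_mem, 1, V.one_mem, by group⟩
      inv_mem' := by
        rintro _ ⟨e, he, v, hv, rfl⟩
        refine ⟨v⁻¹ * e⁻¹ * v, hVE v hv _ (E.inv_mem he), v⁻¹, V.inv_mem hv, by group⟩ }
  have hK : ∀ x, x ∈ K ↔ ∃ e ∈ E, ∃ v ∈ V, x = e * v := fun x => Iff.rfl
  have hEK : E ≤ K := fun e he => ⟨e, he, 1, V.one_mem, (mul_one e).symm⟩
  have hVK : V ≤ K := fun v hv => ⟨1, E.one_mem, v, hv, (one_mul v).symm⟩
  have hKf : (K : Set M).Finite := by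
    have h1 : (K : Set M) = (fun x : M × M => x.1 * x.2) '' ((E : Set M) ×ˢ (V : Set M)) := by
      ext x
      constructor
      · rintro ⟨e, he, v, hv, rfl⟩
        exact ⟨(e, v), ⟨he, hv⟩, rfl⟩
      · rintro ⟨⟨e, v⟩, ⟨he, hv⟩, rfl⟩
        exact ⟨e, he, v, hv, rfl⟩
    rw [h1]
    exact (hE.prod hV).image _
  have hinjEV : ∀ e ∈ E, ∀ e' ∈ E, ∀ v ∈ V, ∀ v' ∈ V, e * v = e' * v' → e = e' ∧ v = v' := by
    intro e he e' he' v hv v' hv' h
    have h1 : e'⁻¹ * e = v' * v⁻¹ := by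
      have h2 : e'⁻¹ * (e * v) * v⁻¹ = e'⁻¹ * (e' * v') * v⁻¹ := by rw [h]
      simpa [mul_assoc] using h2
    have h2 := hEV _ (E.mul_mem (E.inv_mem he') he) (by rw [h1]; exact V.mul_mem hv' (V.inv_mem hv))
    have h3 : e = e' := by
      have := congrArg (fun x => e' * x) h2
      simpa using this
    subst h3
    exact ⟨rfl, mul_left_cancel h⟩
  have hKi : Inv a K := by
    rintro _ ⟨e, he, v, hv, rfl⟩
    exact ⟨a⁻¹ * e * a, hiE e he, a⁻¹ * v * a, hiV v hv, by group⟩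
  have hKfp : FPF a K := by
    rintro _ ⟨e, he, v, hv, rfl⟩ h
    have h1 : (a⁻¹ * e * a) * (a⁻¹ * v * a) = e * v := by
      have h2 : a⁻¹ * (e * v * a) = a⁻¹ * (a * (e * v)) := by rw [h]
      simpa [mul_assoc] using h2
    obtain ⟨h2, h3⟩ := hinjEV _ (hiE e he) _ he _ (hiV v hv) _ hv h1
    have h4 : e * a = a * e := by
      have h5 := congrArg (fun x => a * x) h2
      simpa [mul_assoc] using h5
    have h5 : v * a = a * v := by
      have h6 := congrArg (fun x => a * x) h3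
      simpa [mul_assoc] using h6
    rw [hfE e he h4, hfV v hv h5, one_mul]
  -- the normalizer
  let N : Subgroup M := K ⊓ normalizer (S : Set M)
  have hNf : (N : Set M).Finite := hKf.subset (fun x hx => hx.1)
  have ha1 : a ∈ normalizer (S : Set M) := by
    rw [Subgroup.mem_normalizer_iff'']
    exact fun x => inv_iff a S hSf hiS x
  have hNi : Inv a N := fun k hk =>
    ⟨hKi k hk.1, Subgroup.mul_mem _ (Subgroup.mul_mem _ (Subgroup.inv_mem _ ha1) hk.2) ha1⟩
  have hNfp : FPF a N := fun k hk h => hKfp k hk.1 h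
  -- Frattini
  have hfrat : ∀ v ∈ V, ∃ e ∈ E, e * v ∈ N := by
    intro v hv
    let S' : Subgroup M := MulAut.conj v • S
    have hS' : ∀ x, x ∈ S' ↔ v⁻¹ * x * v ∈ S := by
      intro x
      show x ∈ MulAut.conj v • S ↔ _
      rw [Subgroup.mem_pointwise_smul_iff_inv_smul_mem, ← map_inv]
      show MulAut.conj v⁻¹ x ∈ S ↔ _
      rw [MulAut.conj_apply, inv_inv]
    have hS'E : S' ≤ E := by
      intro x hx
      have h1 := hVE' v hv _ (hSE ((hS' x).1 hx))
      have h2 : v * (v⁻¹ * x * v) * v⁻¹ = x := by group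
      rwa [h2] at h1
    have hc : Nat.card S' = Nat.card S :=
      Nat.card_congr (Subgroup.equivSMul (MulAut.conj v) S).symm.toEquiv
    obtain ⟨e, he, h1⟩ := sylow_conj E S S' r hr hSE hS'E hSc (hc.trans hSc)
    -- `x ∈ S' ↔ e⁻¹ x e ∈ S`; `n = e⁻¹ v` normalises `S`
    refine ⟨e⁻¹, E.inv_mem he, ⟨⟨e⁻¹, E.inv_mem he, v, hv, rfl⟩, ?_⟩⟩
    show e⁻¹ * v ∈ normalizer (S : Set M)
    rw [Subgroup.mem_normalizer_iff]
    intro x
    have h2 := (hS' (v * x * v⁻¹)).symm.trans (h1 (v * x * v⁻¹))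
    have h3 : v⁻¹ * (v * x * v⁻¹) * v = x := by group
    have h4 : e⁻¹ * (v * x * v⁻¹) * e = e⁻¹ * v * x * (e⁻¹ * v)⁻¹ := by group
    rw [h3, h4] at h2
    exact h2
  choose! ε hε1 hε2 using hfrat
  -- counting
  have hcardK : Nat.card K = Nat.card E * Nat.card V := by
    rw [← Nat.card_prod]
    refine Nat.card_congr (Equiv.ofBijective
      (fun x : E × V => (⟨x.1 * x.2, x.1, x.1.2, x.2, x.2.2, rfl⟩ : K)) ⟨?_, ?_⟩).symm
    · rintro ⟨e, v⟩ ⟨e', v'⟩ h
      obtain ⟨h1, h2⟩ := hinjEV e e.2 e' e'.2 v v.2 v' v'.2 (congrArg Subtype.val h)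
      exact Prod.ext (Subtype.ext h1) (Subtype.ext h2)
    · rintro ⟨_, e, he, v, hv, rfl⟩
      exact ⟨(⟨e, he⟩, ⟨v, hv⟩), rfl⟩
  have hcardN : Nat.card N = Nat.card (N ⊓ E : Subgroup M) * Nat.card V := by
    rw [← Nat.card_prod]
    refine Nat.card_congr (Equiv.ofBijective (fun x : (N ⊓ E : Subgroup M) × V =>
      (⟨x.1 * (ε x.2 * x.2), N.mul_mem x.1.2.1 (hε2 x.2 x.2.2)⟩ : N)) ⟨?_, ?_⟩).symm
    · rintro ⟨e, v⟩ ⟨e', v'⟩ h
      have h0 : (e : M) * (ε v * v) = e' * (ε v' * v') := congrArg Subtype.val h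
      have h1 : ((e : M) * ε v) * v = (e' * ε v') * v' := by
        rw [mul_assoc, mul_assoc]; exact h0
      obtain ⟨h2, h3⟩ := hinjEV _ (E.mul_mem e.2.2 (hε1 v v.2)) _
        (E.mul_mem e'.2.2 (hε1 v' v'.2)) v v.2 v' v'.2 h1
      have h4 : v = v' := Subtype.ext h3
      subst h4
      exact Prod.ext (Subtype.ext (mul_right_cancel h2)) rfl
    · rintro ⟨x, hx⟩
      obtain ⟨e, he, v, hv, rfl⟩ := (hK x).1 hx.1
      have h1 : e * v * (ε v * v)⁻¹ ∈ N ⊓ E := by
        refine ⟨N.mul_mem hx (N.inv_mem (hε2 v hv)), ?_⟩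
        have h2 : e * v * (ε v * v)⁻¹ = e * (ε v)⁻¹ := by group
        show e * v * (ε v * v)⁻¹ ∈ E
        rw [h2]
        exact E.mul_mem he (E.inv_mem (hε1 v hv))
      refine ⟨(⟨_, h1⟩, ⟨v, hv⟩), Subtype.ext ?_⟩
      show e * v * (ε v * v)⁻¹ * (ε v * v) = e * v
      group
  haveI : Finite K := hKf.to_subtype
  haveI : Finite N := hNf.to_subtype
  haveI : Finite (N ⊓ E : Subgroup M) := (hE.subset (fun x hx => hx.2)).to_subtype
  have hpart : ∀ c : ℕ, c ≠ 0 → ¬ q ∣ c → q ^ (c * Nat.card V).factorization q = Nat.card V := by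
    intro c hc hqc
    rw [hm, Nat.factorization_mul hc (pow_ne_zero _ hq.ne_zero), Finsupp.add_apply,
      Nat.factorization_eq_zero_of_not_dvd hqc, zero_add, Nat.Prime.factorization_pow hq,
      Finsupp.single_eq_same]
  have hcE : Nat.card E ≠ 0 := Nat.card_pos.ne'
  have hcNE : Nat.card (N ⊓ E : Subgroup M) ≠ 0 := Nat.card_pos.ne'
  have hqNE : ¬ q ∣ Nat.card (N ⊓ E : Subgroup M) := by
    intro h
    exact hqE (h.trans (Subgroup.card_dvd_of_le inf_le_right))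
  obtain ⟨Q, hQN, hQc, hQi⟩ := hSYE M a N p q hNf hNi hNfp hp ha hq
  have hQV : Q = V := by
    refine hSYU M a K Q V q hKf hKi hKfp hq (fun x hx => (hQN hx).1) hVK ?_ ?_ hQi hiV
    · rw [hQc, hcardN, hpart _ hcNE hqNE, hcardK, hpart _ hcE hqE]
    · rw [hcardK, hpart _ hcE hqE]
  intro v hv s hs
  have h1 : v ∈ N := by
    rw [← hQV] at hv
    exact hQN hv
  exact ((Subgroup.mem_normalizer_iff''.1 h1.2) s).1 hs

end Pool.Agent.Helper54.SH
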